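import Mathlib

open MeasureTheory Set Topology Pointwise

namespace Pool.Agent.X72.Pl

/-- translates in a direction -/
lemma null_of_disjoint_translates {n : ℕ} (N : Set (Fin n → ℝ)) (hN : MeasurableSet N)
    (v : Fin n → ℝ) (h : ∀ x ∈ N, ∀ t : ℝ, t ≠ 0 → x + t • v ∉ N) : volume N = 0 := by
  by_contra hne
  have hc := Measure.countable_meas_pos_of_disjoint_iUnion (μ := (volume : Measure (Fin n → ℝ)))
    (As := fun t : ℝ => (fun x : Fin n → ℝ => x + t • v) ⁻¹' N)
    (fun t => (measurable_add_const _) hN)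
    (by
      intro t t' htt
      rw [Function.onFun, Set.disjoint_left]
      intro x hx hx'
      have := h _ hx (t' - t) (sub_ne_zero.2 (Ne.symm htt))
      apply this
      simp only [mem_preimage] at hx'
      convert hx' using 1
      rw [add_assoc, ← add_smul]
      congr 2
      ring)
  have : {t : ℝ | 0 < volume ((fun x : Fin n → ℝ => x + t • v) ⁻¹' N)} = univ := by
    apply eq_univ_of_forall
    intro t
    simp only [mem_ofPred_eq]
    rw [measure_preimage_add_right]
    exact pos_iff_ne_zero.2 hne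
  rw [this] at hc
  exact Set.not_countable_univ hc

def bad (F : ℝ → ℝ) (k : ℕ) (n : ℤ) (m : Fin k → ℤ) (u h : ℝ) : Set (Fin (k + 1) → ℝ) :=
  {x | F (x 0 + u) = n * x 0 + ∑ j, m j * x j.succ + h}

lemma bad_null {F : ℝ → ℝ} (hF : Continuous F) {k : ℕ} {n : ℤ} {m : Fin k → ℤ} {u h : ℝ}
    (j : Fin k) (hj : m j ≠ 0) : volume (bad F k n m u h) = 0 := by
  apply null_of_disjoint_translates _ _ (Pi.single j.succ 1)
  · intro x hx t ht hx'
    simp only [bad, mem_ofPred_eq] at hx hx'
    have e0 : (x + t • (Pi.single j.succ 1 : Fin (k + 1) → ℝ)) 0 = x 0 := by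
      simp [Pi.single_apply, (Fin.succ_ne_zero j).symm]
    rw [e0, hx] at hx'
    have e1 : ∑ i, (m i : ℝ) * (x + t • (Pi.single j.succ 1 : Fin (k + 1) → ℝ)) i.succ
        = ∑ i, (m i : ℝ) * x i.succ + m j * t := by
      simp only [Pi.add_apply, Pi.smul_apply, smul_eq_mul, mul_add, Finset.sum_add_distrib,
        Pi.single_apply]
      congr 1
      simp [Fin.succ_inj]
    rw [e1] at hx'
    have : (m j : ℝ) * t = 0 := by linarith
    rcases mul_eq_zero.1 this with h' | h'
    · exact hj (by exact_mod_cast h')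
    · exact ht h'
  · apply IsClosed.measurableSet
    apply isClosed_eq <;> fun_prop

lemma countable_closure {B : Set ℝ} (hB : B.Countable) :
    (AddSubgroup.closure B : Set ℝ).Countable := by
  have h1 : (Submodule.span ℤ B).toAddSubgroup = AddSubgroup.closure B :=
    Submodule.span_int_eq_addSubgroupClosure B
  rw [← h1]
  have h2 : ((Submodule.span ℤ B).toAddSubgroup : Set ℝ) =
      Set.range (Finsupp.linearCombination ℤ ((↑) : B → ℝ)) := by
    ext x
    simp only [Submodule.coe_toAddSubgroup, SetLike.mem_coe, mem_range]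
    rw [Finsupp.mem_span_iff_linearCombination]
  rw [h2]
  have : Countable B := hB.to_subtype
  exact Set.countable_range _

/-- two-set Steinhaus -/
lemma meets {V W : Set ℝ} (hV : MeasurableSet V) (hW : MeasurableSet W) (h1 : volume V ≠ 0)
    (h2 : volume W ≠ 0) {H : Set ℝ} (hH : Dense H) : ∃ u ∈ H, ∃ x ∈ V, x + u ∈ W := by
  have s1 : ∃ t : ℝ, volume (V ∩ (fun x => x + t) ⁻¹' W) ≠ 0 := by
    by_contra hcon
    push Not at hcon
    have hm := (measurePreserving_prod_add_swap (volume : Measure ℝ) (volume : Measure ℝ))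
    have hm' := (measurePreserving_prod_add (volume : Measure ℝ) (volume : Measure ℝ))
    have hA : MeasurableSet ((fun z : ℝ × ℝ => (z.1, z.1 + z.2)) ⁻¹' (V ×ˢ W)) :=
      hm'.measurable (hV.prod hW)
    have e1 : (volume.prod volume) ((fun z : ℝ × ℝ => (z.1, z.1 + z.2)) ⁻¹' (V ×ˢ W)) =
        volume V * volume W := by
      rw [hm'.measure_preimage (hV.prod hW).nullMeasurableSet, Measure.prod_prod]
    have e2 : (volume.prod volume) ((fun z : ℝ × ℝ => (z.1, z.1 + z.2)) ⁻¹' (V ×ˢ W)) = 0 := by
      rw [Measure.prod_apply_symm hA, lintegral_eq_zero_iff (measurable_measure_prodMk_right hA)]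
      refine Filter.Eventually.of_forall fun t => ?_
      exact hcon t
    rw [e1] at e2
    rcases mul_eq_zero.1 e2 with h | h
    · exact h1 h
    · exact h2 h
  obtain ⟨t, ht⟩ := s1
  set P := V ∩ (fun x => x + t) ⁻¹' W with hP
  have hPm : MeasurableSet P := hV.inter (measurable_add_const t hW)
  have hst := Measure.sub_mem_nhds_zero_of_addHaar_pos volume P hPm (pos_iff_ne_zero.2 ht)
  have hnb : (fun u : ℝ => u - t) ⁻¹' (P - P) ∈ 𝓝 t := by
    apply (continuous_id.sub continuous_const).continuousAt.preimage_mem_nhds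
    simpa using hst
  obtain ⟨u, hu, huH⟩ := mem_closure_iff_nhds.1 (hH t) _ hnb
  obtain ⟨p, hp, q, hq, hpq⟩ := hu
  refine ⟨u, huH, q, hq.1, ?_⟩
  have : q + u = p + t := by
    simp only at hpq
    linarith
  rw [this]
  exact hp.2

end Pool.Agent.X72.Pl
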