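import Pool.Agent.X72.Pl.A

open MeasureTheory Set Topology Pointwise

namespace Pool.Agent.X72.Pl

/-- strongly Sierpiński -/
def StrSierp (S : Set ℝ) : Prop :=
  ¬ S.Countable ∧ ∀ (n : ℕ) (N : Set (Fin n → ℝ)), volume N = 0 →
    ∃ A ⊆ S, A.Countable ∧ ∀ x : Fin n → ℝ, Function.Injective x → (∀ i, x i ∈ S \ A) → x ∉ N

lemma exists_dense_pair {S : Set ℝ} (hS : ¬ S.Countable) :
    ∃ B ⊆ S, B.Countable ∧ Dense (AddSubgroup.closure B : Set ℝ) := by
  have h1 : ∃ s ∈ S, s ≠ 0 := by
    by_contra hcon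
    push Not at hcon
    exact hS ((Set.countable_singleton (0 : ℝ)).mono fun x hx => by simp [hcon x hx])
  obtain ⟨s, hs, hs0⟩ := h1
  have h2 : ∃ t ∈ S, ∀ q : ℚ, t ≠ q * s := by
    by_contra hcon
    push Not at hcon
    apply hS
    apply (Set.countable_range (fun q : ℚ => (q : ℝ) * s)).mono
    intro t ht
    obtain ⟨q, hq⟩ := hcon t ht
    exact ⟨q, hq.symm⟩
  obtain ⟨t, ht, htq⟩ := h2
  refine ⟨{s, t}, ?_, (Set.countable_singleton t).insert s, ?_⟩
  · intro x hx
    rcases hx with rfl | rfl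
    · exact hs
    · exact ht
  · rcases AddSubgroup.dense_or_cyclic (AddSubgroup.closure {s, t}) with h | ⟨a, ha⟩
    · exact h
    · exfalso
      have hs' : s ∈ AddSubgroup.closure {s, t} := AddSubgroup.subset_closure (by simp)
      have ht' : t ∈ AddSubgroup.closure {s, t} := AddSubgroup.subset_closure (by simp)
      rw [ha, AddSubgroup.mem_closure_singleton] at hs' ht'
      obtain ⟨p, hp⟩ := hs'
      obtain ⟨q, hq⟩ := ht'
      have hp0 : (p : ℝ) ≠ 0 := by
        intro h
        apply hs0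
        rw [← hp, zsmul_eq_mul, h, zero_mul]
      apply htq (q / p)
      rw [← hp, ← hq, zsmul_eq_mul, zsmul_eq_mul]
      push_cast
      field_simp

lemma exists_closed {S : Set ℝ} (hS : StrSierp S) {F : ℝ → ℝ} (hF : Continuous F) :
    ∃ A ⊆ S, A.Countable ∧ Dense (AddSubgroup.closure A : Set ℝ) ∧
      ∀ (k : ℕ) (n : ℤ) (m : Fin k → ℤ) (u h : ℝ), u ∈ AddSubgroup.closure A →
        h ∈ AddSubgroup.closure A → (∃ j, m j ≠ 0) →
        ∀ x : Fin (k + 1) → ℝ, Function.Injective x → (∀ i, x i ∈ S \ A) → x ∉ bad F k n m u h := by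
  obtain ⟨B, hBS, hBc, hBd⟩ := exists_dense_pair hS.1
  have hE : ∀ (k : ℕ) (n : ℤ) (m : Fin k → ℤ) (u h : ℝ), ∃ A ⊆ S, A.Countable ∧
      ((∃ j, m j ≠ 0) → ∀ x : Fin (k + 1) → ℝ, Function.Injective x → (∀ i, x i ∈ S \ A) →
        x ∉ bad F k n m u h) := by
    intro k n m u h
    by_cases hj : ∃ j, m j ≠ 0
    · obtain ⟨j, hj'⟩ := hj
      obtain ⟨A, h1, h2, h3⟩ := hS.2 _ _ (bad_null hF (n := n) (u := u) (h := h) j hj')
      exact ⟨A, h1, h2, fun _ => h3⟩
    · exact ⟨∅, empty_subset _, countable_empty, fun h' => absurd h' hj⟩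
  choose E hE1 hE2 hE3 using hE
  let step : Set ℝ → Set ℝ := fun T => T ∪
    ⋃ u ∈ (AddSubgroup.closure T : Set ℝ), ⋃ h ∈ (AddSubgroup.closure T : Set ℝ),
      ⋃ (k : ℕ), ⋃ (n : ℤ), ⋃ (m : Fin k → ℤ), E k n m u h
  let seq : ℕ → Set ℝ := fun i => step^[i] B
  have seq0 : seq 0 = B := rfl
  have seqs : ∀ i, seq (i + 1) = step (seq i) := fun i => Function.iterate_succ_apply' step i B
  have hsub : ∀ i, seq i ⊆ S := by
    intro i
    induction i with
    | zero => exact hBS
    | succ i ih =>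
      rw [seqs]
      apply union_subset ih
      simp only [iUnion_subset_iff]
      intro u _ h _ k n m
      exact hE1 k n m u h
  have hcnt : ∀ i, (seq i).Countable := by
    intro i
    induction i with
    | zero => exact hBc
    | succ i ih =>
      rw [seqs]
      apply ih.union
      apply (countable_closure ih).biUnion
      intro u _
      apply (countable_closure ih).biUnion
      intro h _
      apply countable_iUnion
      intro k
      apply countable_iUnion
      intro n
      apply countable_iUnion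
      intro m
      exact hE2 k n m u h
  have hmono : Monotone seq := by
    apply monotone_nat_of_le_succ
    intro i
    rw [seqs]
    exact subset_union_left
  refine ⟨⋃ i, seq i, iUnion_subset hsub, countable_iUnion hcnt, ?_, ?_⟩
  · apply hBd.mono
    apply AddSubgroup.closure_mono
    exact subset_iUnion seq 0
  · have hcl : ∀ x ∈ AddSubgroup.closure (⋃ i, seq i), ∃ i, x ∈ AddSubgroup.closure (seq i) := by
      intro x hx
      induction hx using AddSubgroup.closure_induction with
      | mem x hx =>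
        obtain ⟨i, hi⟩ := mem_iUnion.1 hx
        exact ⟨i, AddSubgroup.subset_closure hi⟩
      | zero => exact ⟨0, zero_mem _⟩
      | add x y _ _ hx hy =>
        obtain ⟨i, hi⟩ := hx
        obtain ⟨j, hj⟩ := hy
        exact ⟨max i j, add_mem (AddSubgroup.closure_mono (hmono (le_max_left i j)) hi)
          (AddSubgroup.closure_mono (hmono (le_max_right i j)) hj)⟩
      | neg x _ hx =>
        obtain ⟨i, hi⟩ := hx
        exact ⟨i, neg_mem hi⟩
    intro k n m u h hu hh hj x hx hxA
    obtain ⟨i, hi⟩ := hcl u hu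
    obtain ⟨j, hj'⟩ := hcl h hh
    have hi' := AddSubgroup.closure_mono (hmono (le_max_left i j)) hi
    have hj'' := AddSubgroup.closure_mono (hmono (le_max_right i j)) hj'
    apply hE3 k n m u h hj x hx
    intro l
    refine ⟨(hxA l).1, fun hl => (hxA l).2 ?_⟩
    apply mem_iUnion.2
    refine ⟨max i j + 1, ?_⟩
    rw [seqs]
    apply mem_union_right
    exact mem_biUnion hi' (mem_biUnion hj'' (mem_iUnion.2 ⟨k, mem_iUnion.2 ⟨n, mem_iUnion.2 ⟨m, hl⟩⟩⟩))

/-- an element of the group generated by `S`, expanded over `s` and the elements outside `A` -/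
lemma expand {S A : Set ℝ} {s y : ℝ} (hs : s ∈ S \ A) (hy : y ∈ AddSubgroup.closure S) :
    ∃ (n : ℤ) (k : ℕ) (m : Fin k → ℤ) (t : Fin k → ℝ) (h : ℝ), h ∈ AddSubgroup.closure A ∧
      Function.Injective t ∧ (∀ j, t j ∈ S \ A) ∧ (∀ j, t j ≠ s) ∧ (∀ j, m j ≠ 0) ∧
      y = n * s + ∑ j, m j * t j + h := by
  classical
  have h1 : y ∈ Submodule.span ℤ S := by
    have : y ∈ (Submodule.span ℤ S).toAddSubgroup := by
      rw [Submodule.span_int_eq_addSubgroupClosure]
      exact hy
    exact this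
  rw [Submodule.mem_span_set] at h1
  obtain ⟨c, hc, hsum⟩ := h1
  let T := c.support
  let B := T.filter fun x => x ∉ A ∧ x ≠ s
  let e := B.equivFin.symm
  refine ⟨c s, B.card, fun j => c (e j), fun j => (e j : ℝ), ∑ x ∈ T.filter (fun x => x ∈ A), c x * x,
    ?_, ?_, ?_, ?_, ?_, ?_⟩
  · apply sum_mem
    intro x hx
    rw [← zsmul_eq_mul]
    exact zsmul_mem (AddSubgroup.subset_closure (Finset.mem_filter.1 hx).2) _
  · intro i j hij
    exact e.injective (Subtype.ext hij)
  · intro j
    have := Finset.mem_filter.1 (e j).2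
    exact ⟨hc this.1, this.2.1⟩
  · intro j
    exact (Finset.mem_filter.1 (e j).2).2.2
  · intro j
    exact Finsupp.mem_support_iff.1 (Finset.mem_filter.1 (e j).2).1
  · have e1 : ∑ j, ((c (e j) : ℤ) : ℝ) * (e j : ℝ) = ∑ x ∈ B, (c x : ℝ) * x := by
      rw [← Finset.sum_coe_sort B]
      exact Equiv.sum_comp e (fun x : B => (c (x : ℝ) : ℝ) * (x : ℝ))
    rw [e1]
    have e2 : y = ∑ x ∈ T, (c x : ℝ) * x := by
      rw [← hsum, Finsupp.sum]
      exact Finset.sum_congr rfl fun x _ => zsmul_eq_mul _ _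
    rw [e2]
    have e3 : ∑ x ∈ T, (c x : ℝ) * x = ∑ x ∈ T.filter (fun x => x ∈ A), (c x : ℝ) * x +
        ∑ x ∈ T.filter (fun x => x ∉ A), (c x : ℝ) * x :=
      (Finset.sum_filter_add_sum_filter_not T (fun x => x ∈ A) _).symm
    have e4 : ∑ x ∈ T.filter (fun x => x ∉ A), (c x : ℝ) * x =
        ∑ x ∈ B, (c x : ℝ) * x + c s * s := by
      by_cases hsT : s ∈ T
      · have : T.filter (fun x => x ∉ A) = insert s B := by
          ext x
          simp only [B, Finset.mem_filter, Finset.mem_insert]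
          constructor
          · rintro ⟨h1, h2⟩
            by_cases hx : x = s
            · exact Or.inl hx
            · exact Or.inr ⟨h1, h2, hx⟩
          · rintro (rfl | h)
            · exact ⟨hsT, hs.2⟩
            · exact ⟨h.1, h.2.1⟩
        rw [this, Finset.sum_insert (by simp [B]), add_comm]
      · have : T.filter (fun x => x ∉ A) = B := by
          ext x
          simp only [B, Finset.mem_filter]
          constructor
          · rintro ⟨h1, h2⟩
            exact ⟨h1, h2, fun h => hsT (h ▸ h1)⟩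
          · rintro h
            exact ⟨h.1, h.2.1⟩
        rw [this, Finsupp.notMem_support_iff.1 hsT]
        simp
    rw [e3, e4]
    ring

/-- values of `F` at generic points -/
lemma generic {S A : Set ℝ} {F : ℝ → ℝ}
    (hA : ∀ (k : ℕ) (n : ℤ) (m : Fin k → ℤ) (u h : ℝ), u ∈ AddSubgroup.closure A →
        h ∈ AddSubgroup.closure A → (∃ j, m j ≠ 0) →
        ∀ x : Fin (k + 1) → ℝ, Function.Injective x → (∀ i, x i ∈ S \ A) → x ∉ bad F k n m u h)
    {s u : ℝ} (hs : s ∈ S \ A) (hu : u ∈ AddSubgroup.closure A)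
    (hy : F (s + u) ∈ AddSubgroup.closure S) :
    ∃ (n : ℤ) (h : ℝ), h ∈ AddSubgroup.closure A ∧ F (s + u) = n * (s + u) + h := by
  obtain ⟨n, k, m, t, h, hh, ht, htS, hts, hm, he⟩ := expand hs hy
  rcases Nat.eq_zero_or_pos k with rfl | hk
  · refine ⟨n, h - n * u, ?_, ?_⟩
    · rw [← zsmul_eq_mul]
      exact sub_mem hh (zsmul_mem hu n)
    · rw [he]
      simp
      ring
  · exfalso
    apply hA k n m u h hu hh ⟨⟨0, hk⟩, hm _⟩ (Fin.cons s t)
    · rw [Fin.cons_injective_iff]
      refine ⟨?_, ht⟩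
      rintro ⟨j, hj⟩
      exact hts j hj
    · intro i
      refine Fin.cases ?_ (fun j => ?_) i
      · exact hs
      · exact htS j
    · simp only [bad, mem_ofPred_eq, Fin.cons_zero, Fin.cons_succ]
      exact he

end Pool.Agent.X72.Pl
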