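import Pool.Agent.X72.Pl.B

open MeasureTheory Set Topology Pointwise

namespace Pool.Agent.X72.Pl

lemma vol_pre {n : ℝ} (hn : n = 1 ∨ n = -1) (h : ℝ) {C : Set ℝ} (hC : MeasurableSet C) :
    volume ((fun y : ℝ => n * (y - h)) ⁻¹' C) = volume C := by
  rcases hn with rfl | rfl
  · simp only [one_mul]
    exact (measurePreserving_sub_right volume h).measure_preimage hC.nullMeasurableSet
  · have : (fun y : ℝ => (-1 : ℝ) * (y - h)) = fun y => h - y := by
      funext y
      ring
    rw [this]
    exact (Measure.measurePreserving_sub_left volume h).measure_preimage hC.nullMeasurableSet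

theorem plastic {S : Set ℝ} (hS : StrSierp S)
    (f : AddSubgroup.closure S → AddSubgroup.closure S) (hf : Function.Bijective f)
    (hd : ∀ x y, dist (f x) (f y) ≤ dist x y) : Isometry f := by
  classical
  -- extension
  obtain ⟨F, hFL, hFf⟩ : ∃ F : ℝ → ℝ, LipschitzWith 1 F ∧ ∀ x : (AddSubgroup.closure S), F x = f x := by
    have h1 : LipschitzOnWith 1 (fun x : ℝ => if h : x ∈ (AddSubgroup.closure S) then (f ⟨x, h⟩ : ℝ) else 0) ((AddSubgroup.closure S) : Set ℝ) := by
      apply LipschitzOnWith.of_dist_le_mul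
      intro x hx y hy
      have hx' : x ∈ (AddSubgroup.closure S) := hx
      have hy' : y ∈ (AddSubgroup.closure S) := hy
      simp only [hx', hy', dif_pos, NNReal.coe_one, one_mul]
      exact hd ⟨x, hx'⟩ ⟨y, hy'⟩
    obtain ⟨F, h2, h3⟩ := h1.extend_real
    refine ⟨F, h2, fun x => ?_⟩
    have := h3 x.2
    simp only [SetLike.coe_mem, dif_pos, Subtype.coe_eta] at this
    exact this.symm
  have hFc : Continuous F := hFL.continuous
  have hFd : ∀ x y, |F x - F y| ≤ |x - y| := by
    intro x y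
    have := hFL.dist_le_mul x y
    simpa [Real.dist_eq] using this
  have hFG : ∀ x ∈ (AddSubgroup.closure S), F x ∈ (AddSubgroup.closure S) := by
    intro x hx
    rw [hFf ⟨x, hx⟩]
    exact (f ⟨x, hx⟩).2
  have hFi : ∀ x ∈ (AddSubgroup.closure S), ∀ y ∈ (AddSubgroup.closure S), F x = F y → x = y := by
    intro x hx y hy hxy
    rw [hFf ⟨x, hx⟩, hFf ⟨y, hy⟩] at hxy
    have := hf.1 (Subtype.ext hxy)
    exact congrArg Subtype.val this
  obtain ⟨A, hAS, hAc, hAd, hA⟩ := exists_closed hS hFc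
  set GA := AddSubgroup.closure A with hGA
  have hGAG : GA ≤ (AddSubgroup.closure S) := AddSubgroup.closure_mono hAS
  have hGAc : (GA : Set ℝ).Countable := countable_closure hAc
  -- S \ A is not null
  have hX : volume (S \ A) ≠ 0 := by
    intro h0
    have h1 : volume ((fun x : Fin 1 → ℝ => x 0) ⁻¹' (S \ A)) = 0 := by
      have := (volume_preserving_funUnique (Fin 1) ℝ).quasiMeasurePreserving.preimage_null h0
      exact this
    obtain ⟨B, hBS, hBc, hB⟩ := hS.2 1 _ h1
    have h2 : ∃ s ∈ S, s ∉ A ∪ B := by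
      by_contra hcon
      push Not at hcon
      exact hS.1 ((hAc.union hBc).mono hcon)
    obtain ⟨s, hs, hsn⟩ := h2
    apply hB (fun _ => s) (fun i j _ => Subsingleton.elim i j)
    · intro i
      exact ⟨hs, fun h => hsn (Or.inr h)⟩
    · exact ⟨hs, fun h => hsn (Or.inl h)⟩
  -- hitting sets of positive measure
  have hit : ∀ C : Set ℝ, MeasurableSet C → volume C ≠ 0 → ∃ s ∈ S \ A, ∃ u ∈ GA, s + u ∈ C := by
    intro C hC hC0
    by_contra hcon
    push Not at hcon
    let V : Set ℝ := ⋃ u ∈ (GA : Set ℝ), (fun x => x + u) ⁻¹' C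
    have hVm : MeasurableSet V :=
      MeasurableSet.biUnion hGAc fun u _ => measurable_add_const u hC
    have hV0 : volume V ≠ 0 := by
      intro h0
      apply hC0
      apply measure_mono_null _ h0
      intro x hx
      refine mem_biUnion (zero_mem GA) ?_
      simpa using hx
    have hW0 : volume Vᶜ ≠ 0 := by
      intro h0
      apply hX
      apply measure_mono_null _ h0
      intro x hx hxV
      obtain ⟨u, hu, hxu⟩ := mem_iUnion₂.1 hxV
      exact hcon x hx u hu hxu
    obtain ⟨u, hu, x, hx, hxu⟩ := meets hVm.compl hVm hW0 hV0 hAd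
    obtain ⟨u', hu', hxu'⟩ := mem_iUnion₂.1 hxu
    apply hx
    refine mem_biUnion (add_mem hu hu') ?_
    simp only [mem_preimage] at hxu' ⊢
    rwa [← add_assoc]
  have hitG : ∀ C : Set ℝ, MeasurableSet C → volume C ≠ 0 → ∀ z, ∃ g ∈ (AddSubgroup.closure S), g ∈ C ∧ g ≠ z := by
    intro C hC hC0 z
    have h1 : volume (C \ {z}) ≠ 0 := by
      rw [measure_sdiff_null (measure_singleton z)]
      exact hC0
    obtain ⟨s, hs, u, hu, hsu⟩ := hit _ (hC.diff (measurableSet_singleton z)) h1
    exact ⟨s + u, add_mem (AddSubgroup.subset_closure hs.1) (hGAG hu), hsu.1, hsu.2⟩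
  -- the pieces
  let ι := ℤ × GA
  have : Countable GA := hGAc.to_subtype
  let E : ι → Set ℝ := fun i => {x | F x = i.1 * x + i.2}
  have hEc : ∀ i, IsClosed (E i) := fun i => isClosed_eq (by fun_prop) (by fun_prop)
  have hEm : ∀ i, MeasurableSet (E i) := fun i => (hEc i).measurableSet
  have hU : volume (⋃ i, E i)ᶜ = 0 := by
    by_contra h0
    obtain ⟨s, hs, u, hu, hsu⟩ := hit _ (MeasurableSet.iUnion hEm).compl h0
    obtain ⟨n, h, hh, he⟩ := generic hA hs hu
      (hFG _ (add_mem (AddSubgroup.subset_closure hs.1) (hGAG hu)))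
    apply hsu
    exact mem_iUnion.2 ⟨(n, ⟨h, hh⟩), he⟩
  have hn : ∀ i : ι, volume (E i) ≠ 0 → i.1 = 1 ∨ i.1 = -1 := by
    intro i hi
    obtain ⟨x, hxG, hx, -⟩ := hitG _ (hEm i) hi 0
    obtain ⟨y, hyG, hy, hyx⟩ := hitG _ (hEm i) hi x
    have hx' : F x = i.1 * x + i.2 := hx
    have hy' : F y = i.1 * y + i.2 := hy
    have h1 := hFd y x
    have h2 : F y - F x = i.1 * (y - x) := by
      rw [hx', hy']
      ring
    rw [h2, abs_mul] at h1
    have h3 : 0 < |y - x| := abs_pos.2 (sub_ne_zero.2 hyx)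
    have h4 : |((i.1 : ℤ) : ℝ)| ≤ 1 := by
      by_contra hcon
      push Not at hcon
      nlinarith
    have h5 : |i.1| ≤ 1 := by exact_mod_cast h4
    have h6 : i.1 ≠ 0 := by
      intro h0
      apply hyx
      apply hFi y hyG x hxG
      rw [hx', hy', h0]
      simp
    rw [abs_le] at h5
    omega
  let J := {i : ι // i.1 = 1 ∨ i.1 = -1}
  have hUJ : volume (⋃ i : J, E i)ᶜ = 0 := by
    have hsub : (⋃ i : J, E i)ᶜ ⊆ (⋃ i, E i)ᶜ ∪ ⋃ i : {i : ι // ¬ (i.1 = 1 ∨ i.1 = -1)}, E i := by
      intro x hx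
      by_cases hxE : x ∈ ⋃ i, E i
      · right
        obtain ⟨i, hi⟩ := mem_iUnion.1 hxE
        refine mem_iUnion.2 ⟨⟨i, fun h => hx ?_⟩, hi⟩
        exact mem_iUnion.2 ⟨⟨i, h⟩, hi⟩
      · exact Or.inl hxE
    apply measure_mono_null hsub
    apply measure_union_null hU
    apply measure_iUnion_null
    intro i
    by_contra h0
    exact i.2 (hn i h0)
  have hJr : ∀ i : J, ((i.1.1 : ℤ) : ℝ) = 1 ∨ ((i.1.1 : ℤ) : ℝ) = -1 := by
    intro i
    rcases i.2 with h | h
    · left
      rw [h]
      norm_num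
    · right
      rw [h]
      norm_num
  have hJs : ∀ i : J, ((i.1.1 : ℤ) : ℝ) * ((i.1.1 : ℤ) : ℝ) = 1 := by
    intro i
    rcases hJr i with h | h <;> rw [h] <;> norm_num
  -- the intervals
  have key : ∀ a b : ℝ, a < b → |F a - F b| = b - a := by
    intro a b hab
    let T : J → Set ℝ := fun i => (fun y : ℝ => ((i.1.1 : ℤ) : ℝ) * (y - i.1.2)) ⁻¹' (Icc a b ∩ E i)
    have hTm : ∀ i, MeasurableSet (T i) := fun i =>
      (by fun_prop : Measurable (fun y : ℝ => ((i.1.1 : ℤ) : ℝ) * (y - i.1.2)))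
        (measurableSet_Icc.inter (hEm _))
    have hTv : ∀ i, volume (T i) = volume (Icc a b ∩ E i) := fun i =>
      vol_pre (hJr i) _ (measurableSet_Icc.inter (hEm _))
    have hdis : Pairwise (Function.onFun (AEDisjoint volume) T) := by
      intro i j hij
      by_contra h0
      have h0' : volume (T i ∩ T j) ≠ 0 := h0
      -- pull back
      have hC : volume ((fun x : ℝ => ((i.1.1 : ℤ) : ℝ) * (x - -(((i.1.1 : ℤ) : ℝ) * i.1.2))) ⁻¹'
          (T i ∩ T j)) ≠ 0 := by
        rw [vol_pre (hJr i) _ ((hTm i).inter (hTm j))]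
        exact h0'
      obtain ⟨g, hgG, hg, hgz⟩ := hitG _
        ((by fun_prop : Measurable (fun x : ℝ => ((i.1.1 : ℤ) : ℝ) *
          (x - -(((i.1.1 : ℤ) : ℝ) * i.1.2)))) ((hTm i).inter (hTm j))) hC
        (((j.1.1 : ℤ) : ℝ) * (i.1.2 - j.1.2) / 2)
      have e0 : ((i.1.1 : ℤ) : ℝ) * (g - -(((i.1.1 : ℤ) : ℝ) * i.1.2)) =
          ((i.1.1 : ℤ) : ℝ) * g + i.1.2 := by
        have := hJs i
        linear_combination (i.1.2 : ℝ) * this
      have hg' : ((i.1.1 : ℤ) : ℝ) * g + i.1.2 ∈ T i ∩ T j := by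
        rw [← e0]
        exact hg
      have hgi : F g = ((i.1.1 : ℤ) : ℝ) * g + i.1.2 := by
        have h1 : ((i.1.1 : ℤ) : ℝ) * (((i.1.1 : ℤ) : ℝ) * g + i.1.2 - i.1.2) ∈ E i := hg'.1.2
        have e1 : ((i.1.1 : ℤ) : ℝ) * (((i.1.1 : ℤ) : ℝ) * g + i.1.2 - i.1.2) = g := by
          have := hJs i
          linear_combination g * this
        rw [e1] at h1
        exact h1
      set g' := ((j.1.1 : ℤ) : ℝ) * (((i.1.1 : ℤ) : ℝ) * g + i.1.2 - j.1.2) with hg'def
      have hgj : F g' = ((j.1.1 : ℤ) : ℝ) * g' + j.1.2 := by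
        have h1 : g' ∈ E j := hg'.2.2
        exact h1
      have hg'G : g' ∈ (AddSubgroup.closure S) := by
        rw [hg'def, ← zsmul_eq_mul, ← zsmul_eq_mul]
        exact zsmul_mem (sub_mem (add_mem (zsmul_mem hgG _) (hGAG i.1.2.2)) (hGAG j.1.2.2)) _
      have hFF : F g = F g' := by
        rw [hgi, hgj, hg'def]
        have := hJs j
        linear_combination (-(((i.1.1 : ℤ) : ℝ) * g + i.1.2 - j.1.2)) * this
      have hgg := hFi g hgG g' hg'G hFF
      rw [hg'def] at hgg
      rcases hJr i with hi | hi <;> rcases hJr j with hj | hj <;> rw [hi, hj] at hgg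
      · apply hij
        apply Subtype.ext
        apply Prod.ext
        · have : ((i.1.1 : ℤ) : ℝ) = ((j.1.1 : ℤ) : ℝ) := by rw [hi, hj]
          exact_mod_cast this
        · apply Subtype.ext
          linarith
      · apply hgz
        rw [hj]
        linarith
      · apply hgz
        rw [hj]
        linarith
      · apply hij
        apply Subtype.ext
        apply Prod.ext
        · have : ((i.1.1 : ℤ) : ℝ) = ((j.1.1 : ℤ) : ℝ) := by rw [hi, hj]
          exact_mod_cast this
        · apply Subtype.ext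
          linarith
    have hsub : (⋃ i, T i) ⊆ F '' Icc a b := by
      intro y hy
      obtain ⟨i, hi⟩ := mem_iUnion.1 hy
      refine ⟨((i.1.1 : ℤ) : ℝ) * (y - i.1.2), hi.1, ?_⟩
      have h1 : F (((i.1.1 : ℤ) : ℝ) * (y - i.1.2)) =
        ((i.1.1 : ℤ) : ℝ) * (((i.1.1 : ℤ) : ℝ) * (y - i.1.2)) + i.1.2 := hi.2
      rw [h1]
      have := hJs i
      linear_combination (y - i.1.2) * this
    have hvol : ENNReal.ofReal (b - a) ≤ volume (F '' Icc a b) := by
      calc ENNReal.ofReal (b - a) = volume (Icc a b) := Real.volume_Icc.symm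
        _ ≤ volume (⋃ i : J, Icc a b ∩ E i) := by
            rw [← inter_iUnion]
            have : volume (Icc a b) ≤ volume (Icc a b ∩ ⋃ i : J, E i) +
                volume ((⋃ i : J, E i)ᶜ) := by
              refine (measure_mono ?_).trans (measure_union_le _ _)
              intro x hx
              by_cases h : x ∈ ⋃ i : J, E i
              · exact Or.inl ⟨hx, h⟩
              · exact Or.inr h
            rw [hUJ, add_zero] at this
            exact this
        _ ≤ ∑' i : J, volume (Icc a b ∩ E i) := measure_iUnion_le _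
        _ = ∑' i, volume (T i) := by simp_rw [hTv]
        _ = volume (⋃ i, T i) := (measure_iUnion₀ hdis fun i => (hTm i).nullMeasurableSet).symm
        _ ≤ volume (F '' Icc a b) := measure_mono hsub
    have himg := ContinuousOn.image_Icc hab.le (hFc.continuousOn (s := Icc a b))
    set c := sInf (F '' Icc a b) with hc
    set d := sSup (F '' Icc a b) with hd'
    have hne : (F '' Icc a b).Nonempty := (nonempty_Icc.2 hab.le).image F
    have hcomp : IsCompact (F '' Icc a b) := isCompact_Icc.image hFc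
    obtain ⟨x, hx, hxc⟩ := hcomp.sInf_mem hne
    obtain ⟨y, hy, hyd⟩ := hcomp.sSup_mem hne
    rw [himg, Real.volume_Icc] at hvol
    have hcd : b - a ≤ d - c := by
      rcases le_or_gt (d - c) 0 with h | h
      · rw [ENNReal.ofReal_of_nonpos h] at hvol
        have := ENNReal.ofReal_pos.2 (sub_pos.2 hab)
        exact absurd hvol (not_le.2 this)
      · exact (ENNReal.ofReal_le_ofReal_iff h.le).1 hvol
    have hdxy := hFd y x
    rw [hxc, hyd] at hdxy
    have hyx : d - c ≤ |y - x| := (le_abs_self _).trans hdxy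
    have h1 : |F a - F b| ≥ b - a := by
      rcases le_total x y with hxy | hxy
      · rw [abs_of_nonneg (sub_nonneg.2 hxy)] at hyx
        have ha : x = a := by linarith [hx.1, hy.2]
        have hb : y = b := by linarith [hx.1, hy.2]
        rw [← ha, ← hb, hxc, hyd, abs_sub_comm, ← hc, ← hd']
        have := le_abs_self (d - c)
        linarith [hx.1, hy.2]
      · rw [abs_of_nonpos (sub_nonpos.2 hxy)] at hyx
        have ha : y = a := by linarith [hx.2, hy.1]
        have hb : x = b := by linarith [hx.2, hy.1]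
        rw [← ha, ← hb, hxc, hyd, ← hc, ← hd']
        have := le_abs_self (d - c)
        linarith [hx.2, hy.1]
    have h2 := hFd a b
    rw [abs_sub_comm a b, abs_of_pos (sub_pos.2 hab)] at h2
    exact le_antisymm h2 h1
  apply Isometry.of_dist_eq
  intro x y
  rw [Subtype.dist_eq, Subtype.dist_eq, Real.dist_eq, Real.dist_eq, ← hFf, ← hFf]
  rcases lt_trichotomy (x : ℝ) y with h | h | h
  · rw [key _ _ h, abs_sub_comm, abs_of_pos (sub_pos.2 h)]
  · rw [h]
    simp
  · rw [abs_sub_comm, key _ _ h, abs_of_pos (sub_pos.2 h)]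

end Pool.Agent.X72.Pl
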