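import Pool.Agent.X72.Pl.C

open MeasureTheory Set Topology Pointwise

namespace Pool.Agent.X72.Pl

section
variable {Ω : Type} [LinearOrder Ω] [WellFoundedLT Ω]

def Bad (𝒩 : (n : ℕ) → Ω → Set (Fin n → ℝ)) (α : Ω) (g : Iio α → ℝ) : Set ℝ :=
  (⋃ β : Iio α, {g β}) ∪ ⋃ (k : ℕ), ⋃ (β : Fin k → Iio α), ⋃ (γ : Iio α),
    {t | volume {t' : ℝ | (Fin.cons t' (g ∘ β) : Fin (k + 1) → ℝ) ∈ 𝒩 (k + 1) γ} = 0 ∧
      (Fin.cons t (g ∘ β) : Fin (k + 1) → ℝ) ∈ 𝒩 (k + 1) γ}

lemma Bad_null (hc : ∀ a : Ω, (Iio a).Countable) (𝒩 : (n : ℕ) → Ω → Set (Fin n → ℝ)) (α : Ω)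
    (g : Iio α → ℝ) : volume (Bad 𝒩 α g) = 0 := by
  have : Countable (Iio α) := (hc α).to_subtype
  apply measure_union_null
  · exact measure_iUnion_null fun β => measure_singleton _
  · apply measure_iUnion_null
    intro k
    apply measure_iUnion_null
    intro β
    apply measure_iUnion_null
    intro γ
    by_cases h : volume {t' : ℝ | (Fin.cons t' (g ∘ β) : Fin (k + 1) → ℝ) ∈ 𝒩 (k + 1) γ} = 0
    · refine measure_mono_null ?_ h
      intro t ht
      exact ht.2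
    · have : {t : ℝ | volume {t' : ℝ | (Fin.cons t' (g ∘ β) : Fin (k + 1) → ℝ) ∈ 𝒩 (k + 1) γ} = 0 ∧
        (Fin.cons t (g ∘ β) : Fin (k + 1) → ℝ) ∈ 𝒩 (k + 1) γ} = ∅ := by
        ext t
        simp [h]
      rw [this]
      exact measure_empty

lemma exists_seq (hc : ∀ a : Ω, (Iio a).Countable) (𝒩 : (n : ℕ) → Ω → Set (Fin n → ℝ)) :
    ∃ x : Ω → ℝ, ∀ α, x α ∉ Bad 𝒩 α (fun β => x β) := by
  have hp : ∀ (α : Ω) (g : Iio α → ℝ), ∃ t, t ∉ Bad 𝒩 α g := by
    intro α g
    by_contra hcon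
    push Not at hcon
    have h1 : Bad 𝒩 α g = univ := eq_univ_of_forall hcon
    have h2 := Bad_null hc 𝒩 α g
    rw [h1, Real.volume_univ] at h2
    exact ENNReal.top_ne_zero h2
  choose pick hpick using hp
  let x : Ω → ℝ := (wellFounded_lt (α := Ω)).fix fun α ih => pick α (fun β => ih β.1 β.2)
  refine ⟨x, fun α => ?_⟩
  have h1 : x α = pick α (fun β => x β) :=
    (wellFounded_lt (α := Ω)).fix_eq (fun α ih => pick α (fun β => ih β.1 β.2)) α
  rw [h1]
  exact hpick _ _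

end

lemma sec_null {n : ℕ} {M : Set (Fin (n + 1) → ℝ)} (hM : volume M = 0) :
    volume {y : Fin n → ℝ | volume {t : ℝ | (Fin.cons t y : Fin (n + 1) → ℝ) ∈ M} ≠ 0} = 0 := by
  have he := volume_preserving_piFinSuccAbove (fun _ : Fin (n + 1) => ℝ) 0
  have h1 := he.symm.quasiMeasurePreserving.preimage_null hM
  have h2 : (volume.prod volume) ((MeasurableEquiv.piFinSuccAbove (fun _ : Fin (n + 1) => ℝ) 0).symm ⁻¹' M) = 0 := h1
  have h3 := (Measure.measurePreserving_swap (μ := (volume : Measure (Fin n → ℝ)))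
    (ν := (volume : Measure ℝ))).quasiMeasurePreserving.preimage_null h2
  have h4 := Measure.measure_ae_null_of_prod_null h3
  have h5 := ae_iff.1 h4
  refine measure_mono_null ?_ h5
  intro y hy
  simp only [mem_ofPred_eq] at hy ⊢
  intro h6
  apply hy
  rw [Pi.zero_apply] at h6
  convert h6 using 2
  ext t
  simp only [mem_ofPred_eq, mem_preimage, Prod.swap_prod_mk]
  rw [MeasurableEquiv.piFinSuccAbove_symm_apply]
  simp [Fin.insertNthEquiv]

section
variable {Ω : Type} [LinearOrder Ω] [WellFoundedLT Ω] [Nonempty Ω]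

lemma avoid {𝒩 : (n : ℕ) → Ω → Set (Fin n → ℝ)} {x : Ω → ℝ}
    (hx : ∀ α, x α ∉ Bad 𝒩 α (fun β => x β)) (h0 : ∀ n γ, volume (𝒩 n γ) = 0)
    (hcof : ∀ n (N : Set (Fin n → ℝ)), volume N = 0 → ∃ γ, N ⊆ 𝒩 n γ) :
    ∀ n (N : Set (Fin n → ℝ)), volume N = 0 → ∃ γ : Ω, ∀ α : Fin n → Ω, StrictAnti α →
      (∀ i, γ < α i) → x ∘ α ∉ N := by
  intro n
  induction n with
  | zero =>
    intro N hN
    refine ⟨Classical.arbitrary Ω, fun α _ _ hα => ?_⟩
    have h1 : N = univ := by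
      apply eq_univ_of_forall
      intro y
      rwa [Subsingleton.elim y (x ∘ α)]
    have h2 : (volume : Measure (Fin 0 → ℝ)) univ = 1 := by
      rw [volume_pi, Measure.pi_univ]
      simp
    rw [h1, h2] at hN
    exact one_ne_zero hN
  | succ n ih =>
    intro N hN
    obtain ⟨γ1, hγ1⟩ := hcof (n + 1) N hN
    obtain ⟨γ2, hγ2⟩ := ih _ (sec_null (h0 (n + 1) γ1))
    refine ⟨max γ1 γ2, fun α hα hαγ hαN => ?_⟩
    have h1 := hγ2 (fun i => α i.succ) (fun i j hij => hα (Fin.succ_lt_succ_iff.2 hij))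
      (fun i => (le_max_right _ _).trans_lt (hαγ _))
    simp only [mem_ofPred_eq, not_not] at h1
    apply hx (α 0)
    apply mem_union_right
    refine mem_iUnion.2 ⟨n, mem_iUnion.2 ⟨fun i => ⟨α i.succ, hα (Fin.succ_pos i)⟩,
      mem_iUnion.2 ⟨⟨γ1, (le_max_left _ _).trans_lt (hαγ 0)⟩, ?_⟩⟩⟩
    refine ⟨h1, ?_⟩
    have h2 : (Fin.cons (x (α 0)) ((fun β : Iio (α 0) => x β) ∘
        fun i : Fin n => (⟨α i.succ, hα (Fin.succ_pos i)⟩ : Iio (α 0))) : Fin (n + 1) → ℝ) = x ∘ α := by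
      funext i
      refine Fin.cases ?_ (fun j => ?_) i
      · rfl
      · rfl
    simp only
    rw [h2]
    exact hγ1 hαN

lemma x_inj {𝒩 : (n : ℕ) → Ω → Set (Fin n → ℝ)} {x : Ω → ℝ}
    (hx : ∀ α, x α ∉ Bad 𝒩 α (fun β => x β)) : Function.Injective x := by
  intro α β h
  rcases lt_trichotomy α β with h1 | h1 | h1
  · exfalso
    apply hx β
    apply mem_union_left
    exact mem_iUnion.2 ⟨⟨α, h1⟩, h.symm⟩
  · exact h1
  · exfalso
    apply hx α
    apply mem_union_left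
    exact mem_iUnion.2 ⟨⟨β, h1⟩, h⟩

lemma sierp (hc : ∀ a : Ω, (Iio a).Countable) (hu : Uncountable Ω)
    {𝒩 : (n : ℕ) → Ω → Set (Fin n → ℝ)} (h0 : ∀ n γ, volume (𝒩 n γ) = 0)
    (hcof : ∀ n (N : Set (Fin n → ℝ)), volume N = 0 → ∃ γ, N ⊆ 𝒩 n γ) :
    ∃ x : Ω → ℝ, Function.Injective x ∧ StrSierp (range x) := by
  obtain ⟨x, hx⟩ := exists_seq hc 𝒩
  have hinj := x_inj hx
  refine ⟨x, hinj, ?_, ?_⟩
  · intro h
    have : (univ : Set Ω).Countable := by
      have := h.preimage_of_injOn (f := x) hinj.injOn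
      simpa using this
    exact Set.not_countable_univ this
  · intro n N hN
    have h1 : ∀ σ : Equiv.Perm (Fin n), ∃ γ : Ω, ∀ α : Fin n → Ω, StrictAnti α →
      (∀ i, γ < α i) → (x ∘ α) ∘ σ ∉ N := by
      intro σ
      have h2 : volume ((fun y : Fin n → ℝ => y ∘ σ) ⁻¹' N) = 0 := by
        have := (volume_measurePreserving_piCongrLeft (fun _ : Fin n => ℝ) σ.symm)
        have h3 := this.quasiMeasurePreserving.preimage_null hN
        convert h3 using 2
        ext y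
        simp only [mem_preimage]
        have : (MeasurableEquiv.piCongrLeft (fun _ : Fin n => ℝ) σ.symm) y = y ∘ σ := by
          funext i
          rw [MeasurableEquiv.coe_piCongrLeft]
          have := Equiv.piCongrLeft_apply (fun _ : Fin n => ℝ) σ.symm y i
          simpa using this
        rw [this]
      obtain ⟨γ, hγ⟩ := avoid hx h0 hcof n _ h2
      exact ⟨γ, fun α h4 h5 => hγ α h4 h5⟩
    choose γ hγ using h1
    obtain ⟨Γ, hΓ⟩ : ∃ Γ : Ω, ∀ σ, γ σ ≤ Γ := by
      refine ⟨Finset.univ.sup' ⟨1, Finset.mem_univ _⟩ γ, fun σ => Finset.le_sup' γ (Finset.mem_univ σ)⟩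
    refine ⟨x '' Iic Γ, image_subset_range _ _, ?_, ?_⟩
    · apply Countable.image
      have : Iic Γ = Iio Γ ∪ {Γ} := by
        ext a
        simp [le_iff_lt_or_eq]
      rw [this]
      exact (hc Γ).union (countable_singleton _)
    · intro y hy hyS hyN
      have h3 : ∀ i, ∃ a, x a = y i ∧ Γ < a := by
        intro i
        obtain ⟨⟨a, ha⟩, h4⟩ := hyS i
        refine ⟨a, ha, ?_⟩
        by_contra h5
        exact h4 ⟨a, not_lt.1 h5, ha⟩
      choose a ha1 ha2 using h3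
      have hainj : Function.Injective a := by
        intro i j hij
        apply hy
        rw [← ha1, ← ha1, hij]
      -- sort
      let b : Fin n → Ωᵒᵈ := fun i => OrderDual.toDual (a i)
      have hb : Function.Injective b := hainj
      let τ := Tuple.sort b
      have hm : Monotone (b ∘ τ) := Tuple.monotone_sort b
      have hsm : StrictMono (b ∘ τ) := hm.strictMono_of_injective (hb.comp τ.injective)
      have hsa : StrictAnti (a ∘ τ) := fun i j hij => hsm hij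
      apply hγ τ.symm (a ∘ τ) hsa (fun i => (hΓ _).trans_lt (ha2 _))
      have : (x ∘ a ∘ τ) ∘ τ.symm = y := by
        funext i
        simp [ha1]
      rw [this]
      exact hyN

end

end Pool.Agent.X72.Pl
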